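import Pool.Agent.Q262.BP.Z

/-!
# Random twist regions along arbitrary infinite shadows of virtual braids

Diagrams (starting library `Pool.Agent.H891R2.Jones.Diagram`): `Diagram P` (oriented diagrams with marked
points `P`; the arcs only say which marked points are joined, so these are diagrams of links in thickened
surfaces, that is, virtual link diagrams), `Diagram.fPoly` (the normalised bracket `(-A^{-3})^{w(D)} ⟨D⟩`, a
state sum in which all loops count equally), `Outer m` (the part of an oriented diagram outside a box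
through which `m` strands run, with arbitrary directions).

`Pool.Agent.Y463.MP.Defs`: `nonmult N f` (the number of the coefficients of `f` which are not divisible by
`N`), `osize`, `dsize` (the number of crossings and marked points of an outside, of a diagram).
`Pool.Agent.Y463.UT.Defs`: `Law` (probability distributions with finite support `A` on `ℤ`).
`Pool.Agent.Y463.VT.GDefs`: `twG v i x` (the virtual braid word `v_1 σ_{i_1}^{x_1} ⋯ v_k σ_{i_k}^{x_k}`, the `v_j`
being words of virtual crossings), `diaV O w` (the diagram with the word `w` in the box), `turnsG v i μ ε`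
(the number of `j` such that the `j`-th and the next twist region have exactly one strand in common and no
value of their exponents has probability larger than `ε`).

`Pool.Agent.Q262.BP.Z`: `wd x a L` (the members `x a, …, x (a + L - 1)` of the sequence `x`), `HasLaws P μ X`
(`X 0, X 1, …` are independent random integers and `X k` has the distribution `μ k`), `JV O v i x a b` (the
normalised bracket of the diagram obtained by drawing the part `v_a σ_{i_a}^{x_a} ⋯ v_{b-1} σ_{i_{b-1}}^{x_{b-1}}`
of the infinite virtual braid word in the box of `O`).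

The starting theorem `VirtualCrossingChanges` is about one finite word and one outside.  Here the shadow is
an arbitrary, deterministic infinite sequence of twist regions and virtual crossings, all its parts with
sufficiently many turns are considered at the same time, and the polynomials of different parts, which may
overlap, are compared.
-/

set_option autoImplicit false

namespace Pool.Agent.Results.MP_7bc610_gt.InfiniteShadows

open MeasureTheory Filter Pool.Agent.H891R2.Jones Pool.Agent.W639.RB Pool.Agent.Y463.MP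
open Pool.Agent.Y463.UT Pool.Agent.Y463.VT Pool.Agent.Q262.BP LaurentPolynomial

theorem turnsG_le {m k : ℕ} (v : Fin k → List (Fin (m - 1))) (i : Fin k → Fin (m - 1))
    (μ : Fin k → Law) (ε : ℝ) : turnsG v i μ ε ≤ k := by
  classical
  unfold turnsG
  exact (Finset.card_filter_le _ _).trans (by simp)

/-- Let `m ≥ 3`.  There is `R`, and for `0 ≤ ε < 1` and every number `A` there is `K > 0`, and for every
modulus `M ≥ 2` and every `κ` there is `δ > 0` such that the following holds.  Let `v_0, v_1, …` be words of
virtual crossings, `i_0, i_1, …` places, and `x_0, x_1, …` independent random exponents with arbitrary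
distributions `μ_0, μ_1, …` with finite support (for instance random signs: crossing changes in an
arbitrary infinite shadow `v_0 σ_{i_0} v_1 σ_{i_1} ⋯` of virtual braids).  Let `O 0, O 1, …` be outsides of boxes with
`m` strands, and `g 0, g 1, …` Laurent polynomials.  Almost surely, for all large `n`, all
`s, t, N < (n + 1)^A` with `N ≥ 2`, and all `u ≥ K log (n + 1)`:

* if the part from `a` to `b ≤ n` of the word has at least `u R` turns, its normalised bracket in the box of
  `O s` is not congruent to `g t` modulo `N` (for instance, for `g t = 1` it is not `1`);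
* if `a ≤ b ≤ c`, `a' ≤ c ≤ b' ≤ n`, and the part from `c` to `b'` has at least `u R` turns, the normalised
  brackets of the part from `a` to `b` in the box of `O s` and of the part from `a'` to `b'` in the box of
  `O t` are not congruent modulo `N`;
* if the part from `a` to `b ≤ n` has at least `u R` turns and for all possible values of the exponents the
  size of `O s` plus the number of the crossings in the box is at most `κ (u + 1)`, then more than `δ u`
  coefficients of the normalised bracket of this part in the box of `O s` are not divisible by `M`, and it is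
  not congruent modulo `M` to the one of any diagram on a surface with at most `δ u` crossings and marked
  points. -/
theorem result (m : ℕ) (hm : 3 ≤ m) : ∃ R : ℕ, ∀ ε : ℝ, 0 ≤ ε → ε < 1 → ∀ A : ℕ, ∃ K : ℝ, 0 < K ∧
    ∀ M : ℕ, 2 ≤ M → ∀ κ : ℝ, ∃ δ : ℝ, 0 < δ ∧
      ∀ (v : ℕ → List (Fin (m - 1))) (i : ℕ → Fin (m - 1)) (μ : ℕ → Law)
        (Ω : Type) [MeasurableSpace Ω] (P : Measure Ω) (X : ℕ → Ω → ℤ), HasLaws P μ X →
        ∀ (O : ℕ → Outer m) (g : ℕ → ℤ[T;T⁻¹]), ∀ᵐ ω ∂P, ∀ᶠ n : ℕ in atTop,
          (∀ a b u s t N : ℕ, a ≤ b → b ≤ n → K * Real.log (n + 1) ≤ u →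
            u * R ≤ turnsG (wd v a (b - a)) (wd i a (b - a)) (wd μ a (b - a)) ε →
            s < (n + 1) ^ A → t < (n + 1) ^ A → N < (n + 1) ^ A → 2 ≤ N →
            ¬ (N : ℤ[T;T⁻¹]) ∣ JV (O s) v i (fun k => X k ω) a b - g t) ∧
          (∀ a b a' c b' u s t N : ℕ, a ≤ b → b ≤ c → a' ≤ c → c ≤ b' → b' ≤ n →
            K * Real.log (n + 1) ≤ u →
            u * R ≤ turnsG (wd v c (b' - c)) (wd i c (b' - c)) (wd μ c (b' - c)) ε →
            s < (n + 1) ^ A → t < (n + 1) ^ A → N < (n + 1) ^ A → 2 ≤ N →
            ¬ (N : ℤ[T;T⁻¹]) ∣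
              JV (O s) v i (fun k => X k ω) a b - JV (O t) v i (fun k => X k ω) a' b') ∧
          (∀ a b u s : ℕ, a ≤ b → b ≤ n → K * Real.log (n + 1) ≤ u →
            u * R ≤ turnsG (wd v a (b - a)) (wd i a (b - a)) (wd μ a (b - a)) ε →
            s < (n + 1) ^ A →
            (∀ x ∈ Fintype.piFinset (fun j => (wd μ a (b - a) j).A),
              (osize (O s) : ℝ) + ∑ j, |(x j : ℝ)| ≤ κ * (u + 1)) →
            δ * u < nonmult M (JV (O s) v i (fun k => X k ω) a b) ∧
            ∀ (Q : Type) (_ : Finite Q) (D : Diagram Q), (dsize D : ℝ) ≤ δ * u →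
              ¬ (M : ℤ[T;T⁻¹]) ∣ JV (O s) v i (fun k => X k ω) a b - D.fPoly) := by
  obtain ⟨C, R, h⟩ := Pool.Agent.Results.MP_7bc610_gt.VirtualCrossingChanges.result m hm
  refine ⟨max R 1, fun ε hε0 hε1 A => ?_⟩
  set q : ℝ := 1 - (1 - ε) / 20000 with hq
  have hq0 : 0 < q := by rw [hq]; linarith
  have hq1 : q < 1 := by rw [hq]; linarith
  set r : ℝ := √q with hr
  have hr0 : 0 < r := Real.sqrt_pos.2 hq0
  have hr1 : r < 1 := by
    rw [hr, Real.sqrt_lt' one_pos]
    linarith
  have hqr : q ≤ r := by
    have h1 : r * r = q := Real.mul_self_sqrt hq0.le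
    nlinarith
  have hRu : ∀ u w : ℕ, u * max R 1 ≤ w → u * R ≤ w := fun u w hu =>
    (Nat.mul_le_mul_left u (le_max_left R 1)).trans hu
  have hRn : ∀ u w : ℕ, u * max R 1 ≤ w → u ≤ w := fun u w hu =>
    (Nat.le_mul_of_pos_right u (by omega)).trans hu
  have hC : ∀ N : ℕ, 2 ≤ N → ∀ (O : Outer m) (g : ℤ[T;T⁻¹]) (k : ℕ)
      (v : Fin k → List (Fin (m - 1))) (i : Fin k → Fin (m - 1)) (μ : Fin k → Law) (u : ℕ),
      u * max R 1 ≤ turnsG v i μ ε →
      prob μ (fun x => (N : ℤ[T;T⁻¹]) ∣ (diaV O (twG v i x)).fPoly - g) ≤ |C| * r ^ u := by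
    intro N hN O g k v i μ u hu
    refine ((h N hN ε hε0 hε1).1 O g k v i μ u (hRu _ _ hu)).trans ?_
    refine (mul_le_mul_of_nonneg_right (le_abs_self C) (by positivity)).trans ?_
    exact mul_le_mul_of_nonneg_left (pow_le_pow_left₀ hq0.le hqr u) (abs_nonneg C)
  refine ⟨KZ A r, KZ_pos A r hr0 hr1, fun M hM κ => ?_⟩
  obtain ⟨δ, hδ, C', h2⟩ := (h M hM ε hε0 hε1).2 κ
  refine ⟨δ / 8, by positivity, ?_⟩
  intro v i μ Ω _ P X hX O g
  filter_upwards [partZ1 v i μ X hX |C| r ε (max R 1) hr0 hr1 hC A O g,
    partZ2 v i μ X hX |C| r ε (max R 1) hr0 hr1 hC A O,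
    partZ3 v i μ X hX C' r ε κ (max R 1) hr0 hr1
      (fun O u w => (nonmult M (diaV O w).fPoly : ℝ) ≤ δ * u)
      (fun O k v i μ u hu hsz => (h2 O k v i μ u (hRu _ _ hu) hsz).1) A O,
    partZ3 v i μ X hX C' r ε κ (max R 1) hr0 hr1
      (fun O u w => ∃ (Q : Type) (_ : Finite Q) (D : Diagram Q), (dsize D : ℝ) ≤ δ / 8 * u ∧
        (M : ℤ[T;T⁻¹]) ∣ (diaV O w).fPoly - D.fPoly)
      (fun O k v i μ u hu hsz => (h2 O k v i μ u (hRu _ _ hu) hsz).2) A O] with ω h6 h7 h8 h9
  filter_upwards [h6, h7, h8, h9] with n h6 h7 h8 h9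
  refine ⟨?_, ?_, ?_⟩
  · intro a b u s t N hab hb hK hu
    have hun : u ≤ n := by
      have := (hRn _ _ hu).trans (turnsG_le _ _ _ _)
      omega
    exact h6 a b u s t N hab hb hun hK hu
  · intro a b a' c b' u s t N hab hbc hac hcb hb hK hu
    have hun : u ≤ n := by
      have := (hRn _ _ hu).trans (turnsG_le _ _ _ _)
      omega
    exact h7 a b a' c b' u s t N hab hbc hac hcb hb hun hK hu
  · intro a b u s hab hb hK hu hs hsz
    have hun : u ≤ n := by
      have := (hRn _ _ hu).trans (turnsG_le _ _ _ _)
      omega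
    constructor
    · have := h8 a b u s hab hb hun hK hu hs hsz
      push Not at this
      refine lt_of_le_of_lt ?_ this
      have hu0 : (0 : ℝ) ≤ u := Nat.cast_nonneg u
      nlinarith
    · intro Q hQ D hD hdvd
      exact h9 a b u s hab hb hun hK hu hs hsz ⟨Q, hQ, D, hD, hdvd⟩

end Pool.Agent.Results.MP_7bc610_gt.InfiniteShadows
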