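import Pool.Agent.H891R2.RF.Fin

/-!
# Rational fillings of a box in a virtual diagram with unit Jones polynomial

`Pool.Agent.H891R2.RF.Defs`, `Pool.Agent.H891R2.MT.Defs` and `Pool.Agent.H891R2.Jones.Diagram` (starting
library) contain the definitions:

* `UDiagram`, `Diagram`: unoriented / oriented link diagrams on arbitrary surfaces, given by marked points,
  arcs (pieces without crossings) and classical crossings (abstract link diagrams, that is, virtual diagrams);
  `Diagram.fPoly`: the normalised bracket `(-A^{-3})^{w(D)} ⟨D⟩`, all loops of a state counting equally;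
  `Diagram.IsClosed`;
* `Orients D U`: `D` is the unoriented diagram `U` with directions;
* `Outer4`: the part of a diagram outside of a box (a disc in the surface) which the diagram meets in four
  points;
* `Tangle`: diagrams of rational tangles, given by a word of crossings, which are added at the right
  side or at the bottom of the rest, the innermost part being two horizontal strands (the tangle `0`)
  or two vertical strands (the tangle `∞`); `W.fill R`: the box of `W` is filled with `R`;
* `slope R ∈ ℚ ∪ {∞}`: Conway's fraction of `R`; `dist R R' = |p q' - p' q|` for the slopes `p/q`,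
  `p'/q'` of `R`, `R'`;
* `JonesRational W`: there are a word `r` and one unit `± A^m` such that the bracket of `W.fill R` is
  this unit times the bracket of the two-bridge diagram `Outer4.triv.fill (r R)`, for all `R`.
-/

set_option autoImplicit false

namespace Pool.Agent.Results.MP_7bc610_gt.RationalFillingsVirtual

open Pool.Agent.H891R2.RF Pool.Agent.H891R2.MT Pool.Agent.H891R2.Jones

section degree

variable {P : Type} [DecidableEq P]

/-- the number of ends of the arc `x` at the marked point `p` -/
def arcDeg (p : P) (x : P × P) : ℕ := (if x.1 = p then 1 else 0) + (if x.2 = p then 1 else 0)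

/-- the number of ends of the two strands of the crossing `x` at the marked point `p` -/
def crossDeg (p : P) (x : P × P × P × P) : ℕ :=
  (if x.1 = p then 1 else 0) + (if x.2.1 = p then 1 else 0) +
    ((if x.2.2.1 = p then 1 else 0) + (if x.2.2.2 = p then 1 else 0))

/-- the number of ends of arcs and strands at the marked point `p` -/
def deg (arcs : List (P × P)) (crossings : List (P × P × P × P)) (p : P) : ℕ :=
  (arcs.map (arcDeg p)).sum + (crossings.map (crossDeg p)).sum

/-- The unoriented diagram `U` is a diagram of closed curves: every marked point is the end of two pieces of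
the diagram. -/
def UClosed (U : UDiagram P) : Prop := ∀ p, deg U.arcs U.crossings p = 2

end degree

/-- With suitable directions `U` is a diagram of a (virtual) link with unit Jones polynomial. -/
def UnitJones {P : Type} [DecidableEq P] (U : UDiagram P) : Prop :=
  ∃ D : Diagram P, Orients D U ∧ D.IsClosed ∧ D.fPoly = 1

theorem UnitJones.jones {P : Type} [DecidableEq P] {U : UDiagram P} (h : UnitJones U) :
    JonesTrivial U := by
  obtain ⟨D, hD, _, hf⟩ := h
  exact ⟨D, hD, hf⟩

/-- the degree of a marked point outside the box; the corners of the box count -/
def odeg (W : Outer4) (p : W.P) : ℕ :=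
  deg W.arcs W.crossings p + ((if W.corner false false = p then 1 else 0) +
    (if W.corner false true = p then 1 else 0) + ((if W.corner true false = p then 1 else 0) +
    (if W.corner true true = p then 1 else 0)))

theorem deg_close (W : Outer4) (v : Bool) (p : W.P) :
    deg (W.close v).arcs (W.close v).crossings p = odeg W p := by
  cases v
  · simp only [Outer4.close, deg, odeg, List.map_append, List.sum_append, Bool.false_eq_true, if_false,
      List.map_cons, List.map_nil, List.sum_cons, List.sum_nil, arcDeg]
    omega
  · simp only [Outer4.close, deg, odeg, List.map_append, List.sum_append, if_true,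
      List.map_cons, List.map_nil, List.sum_cons, List.sum_nil, arcDeg]
    omega

theorem arcs_inl {P Q : Type} [DecidableEq P] [DecidableEq Q] (L : List (P × P)) (p : P) :
    ((L.map (Prod.map Sum.inl Sum.inl)).map (arcDeg (Sum.inl p : P ⊕ Q))).sum =
      (L.map (arcDeg p)).sum := by
  rw [List.map_map]
  congr 1
  apply List.map_congr_left
  intro x _
  simp [arcDeg]

theorem arcs_inr {P Q : Type} [DecidableEq P] [DecidableEq Q] (L : List (P × P)) (q : Q) :
    ((L.map (Prod.map Sum.inl Sum.inl)).map (arcDeg (Sum.inr q : P ⊕ Q))).sum = 0 := by
  rw [List.map_map]
  apply List.sum_eq_zero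
  intro n hn
  rw [List.mem_map] at hn
  obtain ⟨x, _, rfl⟩ := hn
  simp [arcDeg]

theorem cross_inl {P Q : Type} [DecidableEq P] [DecidableEq Q] (L : List (P × P × P × P)) (p : P) :
    ((L.map (Prod.map Sum.inl (Prod.map Sum.inl (Prod.map Sum.inl Sum.inl)))).map
      (crossDeg (Sum.inl p : P ⊕ Q))).sum = (L.map (crossDeg p)).sum := by
  rw [List.map_map]
  congr 1
  apply List.map_congr_left
  intro x _
  simp [crossDeg]

theorem cross_inr {P Q : Type} [DecidableEq P] [DecidableEq Q] (L : List (P × P × P × P)) (q : Q) :
    ((L.map (Prod.map Sum.inl (Prod.map Sum.inl (Prod.map Sum.inl Sum.inl)))).map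
      (crossDeg (Sum.inr q : P ⊕ Q))).sum = 0 := by
  rw [List.map_map]
  apply List.sum_eq_zero
  intro n hn
  rw [List.mem_map] at hn
  obtain ⟨x, _, rfl⟩ := hn
  simp [crossDeg]

/-- the outside with one more crossing, with explicit instances -/
theorem odeg_push_inl (W : Outer4) (side s : Bool) (p : W.P) :
    odeg (W.push side s) (Sum.inl p) = odeg W p := by
  have h1 : odeg (W.push side s) (Sum.inl p) =
      ((W.arcs.map (Prod.map Sum.inl Sum.inl) ++
        (if side then [(Sum.inl (W.corner false true), Sum.inr (false, true)),
          (Sum.inl (W.corner true true), Sum.inr (true, true))]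
        else [(Sum.inl (W.corner false false), Sum.inr (false, false)),
          (Sum.inl (W.corner false true), Sum.inr (false, true))])).map
          (arcDeg (Sum.inl p : W.P ⊕ (Bool × Bool)))).sum +
      ((W.crossings.map (Prod.map Sum.inl (Prod.map Sum.inl (Prod.map Sum.inl Sum.inl))) ++
        [if s then (Sum.inr (false, false), Sum.inr (false, true), Sum.inr (true, true),
            Sum.inr (true, false))
          else (Sum.inr (false, true), Sum.inr (true, true), Sum.inr (true, false),
            Sum.inr (false, false))]).map
        (crossDeg (Sum.inl p : W.P ⊕ (Bool × Bool)))).sum +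
      ((if (W.push side s).corner false false = Sum.inl p then 1 else 0) +
      (if (W.push side s).corner false true = Sum.inl p then 1 else 0) +
      ((if (W.push side s).corner true false = Sum.inl p then 1 else 0) +
      (if (W.push side s).corner true true = Sum.inl p then 1 else 0))) := rfl
  rw [h1, List.map_append, List.sum_append, List.map_append, List.sum_append, arcs_inl, cross_inl]
  unfold odeg deg
  cases side <;> cases s <;> simp [Outer4.push, arcDeg, crossDeg] <;> omega

theorem odeg_push_inr (W : Outer4) (side s : Bool) (q : Bool × Bool) :
    odeg (W.push side s) (Sum.inr q) = 2 := by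
  have h1 : odeg (W.push side s) (Sum.inr q) =
      ((W.arcs.map (Prod.map Sum.inl Sum.inl) ++
        (if side then [(Sum.inl (W.corner false true), Sum.inr (false, true)),
          (Sum.inl (W.corner true true), Sum.inr (true, true))]
        else [(Sum.inl (W.corner false false), Sum.inr (false, false)),
          (Sum.inl (W.corner false true), Sum.inr (false, true))])).map
          (arcDeg (Sum.inr q : W.P ⊕ (Bool × Bool)))).sum +
      ((W.crossings.map (Prod.map Sum.inl (Prod.map Sum.inl (Prod.map Sum.inl Sum.inl))) ++
        [if s then (Sum.inr (false, false), Sum.inr (false, true), Sum.inr (true, true),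
            Sum.inr (true, false))
          else (Sum.inr (false, true), Sum.inr (true, true), Sum.inr (true, false),
            Sum.inr (false, false))]).map
        (crossDeg (Sum.inr q : W.P ⊕ (Bool × Bool)))).sum +
      ((if (W.push side s).corner false false = Sum.inr q then 1 else 0) +
      (if (W.push side s).corner false true = Sum.inr q then 1 else 0) +
      ((if (W.push side s).corner true false = Sum.inr q then 1 else 0) +
      (if (W.push side s).corner true true = Sum.inr q then 1 else 0))) := rfl
  rw [h1, List.map_append, List.sum_append, List.map_append, List.sum_append, arcs_inr, cross_inr]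
  obtain ⟨t, r⟩ := q
  cases side <;> cases s <;> cases t <;> cases r <;> simp [Outer4.push, arcDeg, crossDeg]

theorem two_pushes (w : List (Bool × Bool)) : ∀ W : Outer4,
    ((∀ p, odeg (W.pushes w) p = 2) ↔ ∀ p, odeg W p = 2) := by
  induction w with
  | nil => intro W; exact Iff.rfl
  | cons x w ih =>
    intro W
    have h1 : W.pushes (x :: w) = (W.push x.1 x.2).pushes w := rfl
    rw [h1, ih]
    constructor
    · intro h p
      rw [← odeg_push_inl W x.1 x.2 p]
      exact h (Sum.inl p)
    · intro h p
      rcases p with p | q
      · exact (odeg_push_inl W x.1 x.2 p).trans (h p)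
      · exact odeg_push_inr W x.1 x.2 q

theorem uClosed_fill (W : Outer4) (R : Tangle) : UClosed (W.fill R) ↔ ∀ p, odeg W p = 2 := by
  rw [← two_pushes R.1 W]
  have h : ∀ p, deg (W.fill R).arcs (W.fill R).crossings p = odeg (W.pushes R.1) p :=
    fun p => deg_close (W.pushes R.1) R.2 p
  unfold UClosed
  simp only [h]

/-- **Rational fillings with unit Jones polynomial.**  Let `W` be the outside of a disc in a surface which a
diagram on the surface meets in four points (a virtual 2-tangle).

* If one filling of the disc by a rational tangle gives a diagram of closed curves, then all do.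
* Either at most two slopes in `ℚ ∪ {∞}` occur among the rational tangles `R` for which `W.fill R`, with
  suitable directions, is a diagram of a link with unit Jones polynomial, and two different such slopes have
  odd distance; or `W` is Jones-rational (up to one unit all its rational fillings have the brackets of the
  fillings of a rational tangle), and then all `R` for which `W.fill R` is such a diagram have distance one
  from one slope. -/
theorem result (W : Outer4) :
    (∀ R R' : Tangle, UClosed (W.fill R) → UClosed (W.fill R')) ∧
    (((∀ R₁ R₂ : Tangle, UnitJones (W.fill R₁) → UnitJones (W.fill R₂) → slope R₁ ≠ slope R₂ →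
      Odd (dist R₁ R₂)) ∧
     ∃ s₁ s₂ : OnePoint ℚ, ∀ R : Tangle, UnitJones (W.fill R) → slope R = s₁ ∨ slope R = s₂) ∨
    (JonesRational W ∧ ∃ R₀ : Tangle, ∀ R : Tangle, UnitJones (W.fill R) → dist R R₀ = 1)) := by
  refine ⟨fun R R' h => (uClosed_fill W R').2 ((uClosed_fill W R).1 h), ?_⟩
  rcases Fin.main W with ⟨h1, R₀, h2⟩ | ⟨h1, s₁, s₂, h2⟩
  · exact Or.inr ⟨h1, R₀, fun R hR => h2 R hR.jones⟩
  · exact Or.inl ⟨fun R₁ R₂ hR₁ hR₂ hne => h1 R₁ R₂ hR₁.jones hR₂.jones hne,
      s₁, s₂, fun R hR => h2 R hR.jones⟩

end Pool.Agent.Results.MP_7bc610_gt.RationalFillingsVirtual
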