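import Pool.Agent.Y463.CD.Fin

/-!
# Closures of virtual braids with short Jones polynomial: codimension = cycles of the permutation - 1

Diagrams (starting library): `Pool.Agent.H891R2.Jones.Diagram` (`Diagram P`: oriented diagrams with marked
points `P` on arbitrary surfaces, that is, virtual diagrams; `Diagram.fPoly`: the normalised bracket
`(-A^{-3})^{w(D)} ⟨D⟩`, all loops counting equally; `Diagram.IsClosed`), `Pool.Agent.H891R2.MT.Defs`
(`UDiagram`: unoriented diagrams; `Orients D U`: `D` is `U` with directions; `nS w S = ∑ e ∈ S, w e`).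
`FSpanLE s D` (`Pool.Agent.H832R3.TW.E`): the normalised bracket of `D` is supported in an interval of length
at most `4 s`, so that the Jones polynomial `V(t)`, `t = A^{-4}`, has span at most `s`.

`Pool.Agent.H891R2.SI.Defs`:

* `Sites k`: a diagram `O` with `k` open boxes (sites); `O.Connected`: the diagram is connected, each site
  being one piece; `O.crossings`: the classical crossings outside the sites;
* `O.fill w`, `w ∈ ℤ^k`: the site `e` is filled with two strands twisted around each other, a row of
  `|w e|` crossings of the kind given by the sign of `w e`;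
* `det U`: the absolute value of the bracket `⟨U⟩` at `A = e^{πi/4}`.

`Pool.Agent.Y463.CD.Defs`:

* `Many X n w`: there are `n` pairs `S i`, `S' i` of sets of sites such that the vectors `1_{S i} - 1_{S' i}` are
  linearly independent and `2 |w(S i) - w(S' i)| ≤ X` for all `i`;
* `flat O`: every site is filled with two strands without crossings, `pieces U`: the number of connected
  pieces of the diagram `U` (for a diagram without crossings: the number of its closed curves).

The general theorem on twist families used here is the one behind the starting result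
`MP_42db45_gt.TwistCodimension` (`Pool.Agent.Y463.CD`), where planarity is not used; this file has the family of
the closures of virtual braids.
-/

set_option autoImplicit false

namespace Pool.Agent.Results.MP_7bc610_gt.TwistCodimensionVirtual

open Finset Pool.Agent.H891R2.Jones Pool.Agent.H891R2.MT Pool.Agent.H891R2.SI Pool.Agent.Y463.CD
open Pool.Agent.H891R2.ZO (IsPow)
open Pool.Agent.H832R3.TW (FSpanLE)

/-- With suitable directions `O.fill w` is a diagram of a (virtual) link whose Jones polynomial has span at
most `s` (for instance, for `s = 0`, is equal to `1`). -/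
def VSmall {k : ℕ} (O : Sites k) (s : ℕ) (w : Fin k → ℤ) : Prop :=
  ∃ D : Diagram (O.P ⊕ Ribbon.Pt w), Orients D (O.fill w) ∧ D.IsClosed ∧ FSpanLE s D

/-- The closure of the virtual braid `σ_{i 0} ^ {w 0} π_0 σ_{i 1} ^ {w 1} π_1 ⋯` with `m` strands, where
`π_j` is a word of virtual crossings with the permutation `π j`, as a diagram with `k` sites: marked points
`(j, x)` at the place `x` of the level `j = 0, …, k`; the site `j` has its lower corners at the places `i j`
and `i j + 1` of the level `j`, and its upper corners are joined with the places `π_j (i j)` and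
`π_j (i j + 1)` of the level `j + 1`; every other place `x` of the level `j` is joined with the place `π_j x` of
the level `j + 1`, and the level `k` is joined with the level `0`. -/
abbrev virtualBraid {k : ℕ} (m : ℕ) (i : Fin k → ℕ) (hi : ∀ j, i j + 1 < m)
    (π : Fin k → Equiv.Perm (Fin m)) : Sites k where
  P := Fin (k + 1) × Fin m
  arcs := (List.finRange k).flatMap (fun j =>
    ((List.finRange m).filter (fun x : Fin m => (x : ℕ) ≠ i j ∧ (x : ℕ) ≠ i j + 1)).map
      (fun x => ((j.castSucc, x), (j.succ, π j x)))) ++
    (List.finRange m).map (fun x => ((Fin.last k, x), (0, x)))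
  crossings := []
  corner := fun j t l => (if t then j.succ else j.castSucc,
    if t then π j (if l then ⟨i j, Nat.lt_of_succ_lt (hi j)⟩ else ⟨i j + 1, hi j⟩)
    else (if l then ⟨i j, Nat.lt_of_succ_lt (hi j)⟩ else ⟨i j + 1, hi j⟩))

variable {k m : ℕ}

/-- the permutation `π_{j-1} ⋯ π_1 π_0` -/
def pperm (π : Fin k → Equiv.Perm (Fin m)) : ℕ → Equiv.Perm (Fin m)
  | 0 => 1
  | j + 1 => (if h : j < k then π ⟨j, h⟩ else 1) * pperm π j

/-- the number of cycles (including the fixed points) of the permutation `π_{k-1} ⋯ π_1 π_0` -/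
noncomputable def cyc (π : Fin k → Equiv.Perm (Fin m)) : ℕ :=
  Nat.card (Quot (fun x y : Fin m => pperm π k x = y))

theorem pperm_succ (π : Fin k → Equiv.Perm (Fin m)) (j : Fin k) :
    pperm π (j + 1) = π j * pperm π j := by
  show (if h : (j : ℕ) < k then π ⟨j, h⟩ else 1) * pperm π j = _
  rw [dif_pos j.2]

theorem virtual_pieces (i : Fin k → ℕ) (hi : ∀ j, i j + 1 < m) (π : Fin k → Equiv.Perm (Fin m)) :
    cyc π ≤ pieces (flat (virtualBraid m i hi π)) := by
  classical
  let f : Fin (k + 1) × Fin m → Quot (fun x y : Fin m => pperm π k x = y) :=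
    fun p => Quot.mk _ ((pperm π p.1)⁻¹ p.2)
  have hstep : ∀ (j : Fin k) (x : Fin m), f (j.castSucc, x) = f (j.succ, π j x) := by
    intro j x
    show Quot.mk _ ((pperm π (j.castSucc : ℕ))⁻¹ x) = Quot.mk _ ((pperm π (j.succ : ℕ))⁻¹ (π j x))
    have h1 : ((j.succ : Fin (k + 1)) : ℕ) = (j : ℕ) + 1 := rfl
    have h2 : ((j.castSucc : Fin (k + 1)) : ℕ) = (j : ℕ) := rfl
    rw [h1, h2, pperm_succ, mul_inv_rev, Equiv.Perm.mul_apply]
    simp
  have hf : ∀ p q, Adj (flat (virtualBraid m i hi π)) p q → f p = f q := by
    intro p q h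
    rcases h with h | ⟨x, hx, _⟩
    · change (p, q) ∈ (virtualBraid m i hi π).arcs ++ _ at h
      rw [List.mem_append] at h
      rcases h with h | h
      · rw [List.mem_append] at h
        rcases h with h | h
        · obtain ⟨j, _, he⟩ := List.mem_flatMap.1 h
          obtain ⟨x, _, hx⟩ := List.mem_map.1 he
          rw [Prod.mk.injEq] at hx
          rw [← hx.1, ← hx.2]
          exact hstep j x
        · obtain ⟨x, _, hx⟩ := List.mem_map.1 h
          rw [Prod.mk.injEq] at hx
          rw [← hx.1, ← hx.2]
          apply Quot.sound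
          show pperm π k ((pperm π k)⁻¹ x) = (pperm π 0)⁻¹ x
          simp [pperm]
      · obtain ⟨j, _, he⟩ := List.mem_flatMap.1 h
        rw [if_pos (Finset.mem_univ j)] at he
        simp only [List.mem_cons, List.not_mem_nil, or_false, Prod.mk.injEq] at he
        rcases he with ⟨rfl, rfl⟩ | ⟨rfl, rfl⟩
        · exact hstep j _
        · exact hstep j _
    · exact absurd hx List.not_mem_nil
  let F : Quot (Adj (flat (virtualBraid m i hi π))) → Quot (fun x y : Fin m => pperm π k x = y) :=
    Quot.lift f hf
  have hF : Function.Surjective F := by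
    intro y
    induction y using Quot.ind with
    | mk x =>
      refine ⟨Quot.mk _ (0, x), ?_⟩
      show Quot.mk _ ((pperm π 0)⁻¹ x) = _
      simp [pperm]
  exact Nat.card_le_card_of_surjective F hF

/-- the strands at the levels are joined -/
theorem adj_up (i : Fin k → ℕ) (hi : ∀ j, i j + 1 < m) (π : Fin k → Equiv.Perm (Fin m)) (j : Fin k)
    (x : Fin m) : Adj (flat (virtualBraid m i hi π)) (j.castSucc, x) (j.succ, π j x) := by
  classical
  by_cases h1 : (x : ℕ) = i j
  · have h2 : x = ⟨i j, Nat.lt_of_succ_lt (hi j)⟩ := Fin.ext h1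
    rw [h2]
    refine Or.inl (List.mem_append_right _ (List.mem_flatMap.2 ⟨j, List.mem_finRange j, ?_⟩))
    rw [if_pos (Finset.mem_univ j)]
    simp
  · by_cases h3 : (x : ℕ) = i j + 1
    · have h2 : x = ⟨i j + 1, hi j⟩ := Fin.ext h3
      rw [h2]
      refine Or.inl (List.mem_append_right _ (List.mem_flatMap.2 ⟨j, List.mem_finRange j, ?_⟩))
      rw [if_pos (Finset.mem_univ j)]
      simp
    · refine Or.inl (List.mem_append_left _ (List.mem_append_left _
        (List.mem_flatMap.2 ⟨j, List.mem_finRange j, ?_⟩)))
      refine List.mem_map.2 ⟨x, ?_, rfl⟩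
      rw [List.mem_filter]
      exact ⟨List.mem_finRange x, by simp [h1, h3]⟩

theorem adj_close (i : Fin k → ℕ) (hi : ∀ j, i j + 1 < m) (π : Fin k → Equiv.Perm (Fin m))
    (x : Fin m) : Adj (flat (virtualBraid m i hi π)) (Fin.last k, x) (0, x) :=
  Or.inl (List.mem_append_left _ (List.mem_append_right _ (List.mem_map.2 ⟨x, List.mem_finRange x, rfl⟩)))

theorem pieces_virtual (i : Fin k → ℕ) (hi : ∀ j, i j + 1 < m) (π : Fin k → Equiv.Perm (Fin m)) :
    pieces (flat (virtualBraid m i hi π)) = cyc π := by
  classical
  refine le_antisymm ?_ (virtual_pieces i hi π)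
  have hlev : ∀ (j : Fin (k + 1)) (x : Fin m),
      Quot.mk (Adj (flat (virtualBraid m i hi π))) ((0 : Fin (k + 1)), x) = Quot.mk _ (j, pperm π j x) := by
    intro j
    induction j using Fin.induction with
    | zero => intro x; rfl
    | succ j ih =>
      intro x
      rw [ih x]
      have h1 : pperm π (j.succ : ℕ) x = π j (pperm π (j.castSucc : ℕ) x) := by
        have h2 : ((j.succ : Fin (k + 1)) : ℕ) = (j : ℕ) + 1 := rfl
        have h3 : ((j.castSucc : Fin (k + 1)) : ℕ) = (j : ℕ) := rfl
        rw [h2, h3, pperm_succ, Equiv.Perm.mul_apply]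
      rw [h1]
      exact Quot.sound (adj_up i hi π j _)
  let F : Quot (fun x y : Fin m => pperm π k x = y) → Quot (Adj (flat (virtualBraid m i hi π))) :=
    Quot.lift (fun x => Quot.mk _ ((0 : Fin (k + 1)), x)) (by
      rintro x y rfl
      show Quot.mk _ ((0 : Fin (k + 1)), x) = Quot.mk _ ((0 : Fin (k + 1)), pperm π k x)
      rw [hlev (Fin.last k) x]
      exact Quot.sound (adj_close i hi π _))
  have hF : Function.Surjective F := by
    intro y
    induction y using Quot.ind with
    | mk y =>
      obtain ⟨j, y⟩ := y
      refine ⟨Quot.mk _ ((pperm π j)⁻¹ y), ?_⟩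
      show Quot.mk _ ((0 : Fin (k + 1)), (pperm π j)⁻¹ y) = _
      rw [hlev j]
      simp
  have : Finite (Quot (fun x y : Fin m => pperm π k x = y)) := inferInstance
  exact Nat.card_le_card_of_surjective F hF

theorem VSmall.small {O : Sites k} {s : ℕ} {w : Fin k → ℤ} (h : VSmall O s w) : Small O s w := by
  obtain ⟨D, hD, _, hs⟩ := h
  exact ⟨D, hD, hs⟩

/-- **Codimension for closures of virtual braids.**  Let `β(w) = σ_{i 0} ^ {w 0} π_0 σ_{i 1} ^ {w 1} π_1 ⋯`,
`w ∈ ℤ^k`, `k ≥ 1`, be the virtual braids on `m` strands with `k` rows of crossings and given words `π_j` of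
virtual crossings, and `z` the number of cycles of the permutation `π_{k-1} ⋯ π_0` (fixed points included).

* Without the crossings, the closure consists of exactly `z` closed curves.
* Let the diagram of the closure be connected (the sites being single pieces), `s ≥ 0` and `n + 1 ≤ z`.  If the
  closure of `β(w)`, with suitable directions, is a virtual link whose Jones polynomial has span at most `s`, and
  its determinant is not `0`, then there are `n` linearly independent vectors `1_S - 1_{S'}` with
  `2 |w(S) - w(S')| ≤ 6 k + 2 s`.  At most `(3^k (6 k + 2 s + 1))^n (2 N + 1)^(k - n)` of these `w` have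
  `|w e| ≤ N` for all `e`.
* A closure with Jones polynomial `1` has this property for `s = 0`.

For `π_{k-1} ⋯ π_0 = 1` the codimension is `n = m - 1`. -/
theorem result :
    ∀ (k m : ℕ), 0 < k → ∀ (i : Fin k → ℕ) (hi : ∀ j, i j + 1 < m) (π : Fin k → Equiv.Perm (Fin m)),
      pieces (flat (virtualBraid m i hi π)) = cyc π ∧
      ((virtualBraid m i hi π).Connected →
        (∀ (w : Fin k → ℤ) (D : Diagram ((virtualBraid m i hi π).P ⊕ Ribbon.Pt w)),
          Orients D ((virtualBraid m i hi π).fill w) → D.IsClosed → D.fPoly = 1 →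
            VSmall (virtualBraid m i hi π) 0 w ∧ det ((virtualBraid m i hi π).fill w) ≠ 0) ∧
        ∀ s n : ℕ, n + 1 ≤ cyc π →
        (∀ w, VSmall (virtualBraid m i hi π) s w → det ((virtualBraid m i hi π).fill w) ≠ 0 →
          Many (6 * k + 2 * s) n w) ∧
        ∀ N : ℕ, {w : Fin k → ℤ | (∀ e, |w e| ≤ N) ∧ VSmall (virtualBraid m i hi π) s w ∧
          det ((virtualBraid m i hi π).fill w) ≠ 0}.ncard ≤
            (3 ^ k * (6 * k + 2 * s + 1)) ^ n * (2 * N + 1) ^ (k - n)) := by
  intro k m hk i hi π
  refine ⟨pieces_virtual i hi π, fun hc => ⟨?_, fun s n hn => ?_⟩⟩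
  · intro w D hD hK hf
    refine ⟨⟨D, hD, hK, ?_⟩, (det_of_unit (virtualBraid m i hi π) hk w D hD hf).2⟩
    refine ⟨0, fun j hj => ?_⟩
    rw [hf] at hj
    have h1 := T4b.SIn.one j hj
    constructor
    · linarith [h1.1]
    · push_cast
      linarith [h1.2]
  · have hp := virtual_pieces i hi π
    have h1 : ∀ w, VSmall (virtualBraid m i hi π) s w → det ((virtualBraid m i hi π).fill w) ≠ 0 →
        Many (6 * k + 2 * s) n w := by
      intro w hw hd
      have h2 := many_of_small (virtualBraid m i hi π) hk hc s n (Or.inl (by omega)) w hw.small hd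
      have e : 3 * (virtualBraid m i hi π).crossings.length + 6 * k + 2 * s = 6 * k + 2 * s := by
        show 3 * 0 + 6 * k + 2 * s = _
        ring
      rwa [e] at h2
    exact ⟨h1, (count_of_many (6 * k + 2 * s) n
      (fun w => VSmall (virtualBraid m i hi π) s w ∧ det ((virtualBraid m i hi π).fill w) ≠ 0)
      (fun w hw => h1 w hw.1 hw.2)).2⟩

end Pool.Agent.Results.MP_7bc610_gt.TwistCodimensionVirtual
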